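import Mathlib

/-!
# Local independence frequency does not force a Hamiltonian path

For every `n ≥ 11` there is a connected graph on `n` vertices without a Hamiltonian path and with
`(1 + 2 |E(Gᶜ)|) / 6 ≤ f(G)`, where `f(G)` is the number of vertices of maximum local independence
number. The graph: a clique `K` on `n - 5` vertices, a vertex `x` and two nonadjacent vertices
`t₁, t₂` joined to all of `K`, and two vertices `a, b` whose only neighbour is `x`.
-/

set_option autoImplicit false

namespace Pool.Agent.Results.MP_81a4f1_co.Disproof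

open SimpleGraph

/-- The local independence number of `v`: the independence number of the subgraph induced on the
open neighbourhood of `v`. -/
noncomputable def localIndep {V : Type} (G : SimpleGraph V) (v : V) : ℕ :=
  (G.induce (G.neighborSet v)).indepNum

/-- The maximum of the local independence numbers. -/
noncomputable def lambdaMax {V : Type} [Fintype V] (G : SimpleGraph V) : ℕ :=
  Finset.univ.sup (localIndep G)

/-- The number of vertices whose local independence number is maximum. -/
noncomputable def freq {V : Type} [Fintype V] (G : SimpleGraph V) : ℕ :=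
  {v : V | localIndep G v = lambdaMax G}.ncard

/-- The adjacency of the example. `inl` is the clique, `0, 1` are `a, b`, `2` is `x`,
`3, 4` are `t₁, t₂`. -/
def adj (m : ℕ) : Fin m ⊕ Fin 5 → Fin m ⊕ Fin 5 → Prop
  | .inl i, .inl j => i ≠ j
  | .inl _, .inr s => 2 ≤ s.val
  | .inr s, .inl _ => 2 ≤ s.val
  | .inr s, .inr t => (s.val = 2 ∧ t.val ≤ 1) ∨ (t.val = 2 ∧ s.val ≤ 1)

/-- The example. -/
def gr (m : ℕ) : SimpleGraph (Fin m ⊕ Fin 5) where
  Adj := adj m
  symm := ⟨by
    rintro (i | s) (j | t) h
    · exact Ne.symm h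
    · exact h
    · exact h
    · exact h.symm⟩
  loopless := ⟨by
    rintro (i | s) h
    · exact h rfl
    · rcases h with h | h <;> omega⟩

lemma indepNum_le {V : Type} [Fintype V] (G : SimpleGraph V) (k : ℕ)
    (h : ∀ s : Finset V, G.IsIndepSet s → s.card ≤ k) : G.indepNum ≤ k := by
  obtain ⟨s, hs⟩ := G.exists_isNIndepSet_indepNum
  rw [← hs.card_eq]
  exact h s hs.isIndepSet

lemma localIndep_le {V : Type} [Fintype V] (G : SimpleGraph V) (v : V) (k : ℕ)
    (h : ∀ s : Finset V, (∀ u ∈ s, G.Adj v u) → G.IsIndepSet s → s.card ≤ k) :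
    localIndep G v ≤ k := by
  classical
  apply indepNum_le
  intro s hs
  have h1 := h (s.map (Function.Embedding.subtype _)) (by
    intro u hu
    simp only [Finset.mem_map, Function.Embedding.coe_subtype] at hu
    obtain ⟨a, _, rfl⟩ := hu
    exact a.2) (by
    intro a ha b hb hab
    simp only [Finset.coe_map, Function.Embedding.coe_subtype, Set.mem_image] at ha hb
    obtain ⟨a', ha', rfl⟩ := ha
    obtain ⟨b', hb', rfl⟩ := hb
    have := hs ha' hb' (by rintro rfl; exact hab rfl)
    simpa using this)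
  simpa using h1

lemma le_localIndep {V : Type} [Fintype V] (G : SimpleGraph V) (v : V) (s : Finset V)
    (h1 : ∀ u ∈ s, G.Adj v u) (h2 : G.IsIndepSet s) : s.card ≤ localIndep G v := by
  classical
  have : (s.subtype (fun u => u ∈ G.neighborSet v)).card = s.card := by
    rw [Finset.card_subtype, Finset.filter_true_of_mem]
    exact h1
  rw [← this]
  unfold localIndep
  apply IsIndepSet.card_le_indepNum
  intro a ha b hb hab
  rw [Finset.mem_coe, Finset.mem_subtype] at ha hb
  have := h2 (show (a : V) ∈ (s : Set V) by simpa using ha)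
    (show (b : V) ∈ (s : Set V) by simpa using hb) (fun h => hab (Subtype.ext h))
  simpa using this

/-- every independent set inside a neighbourhood has at most three elements -/
lemma indep_le (m : ℕ) (v : Fin m ⊕ Fin 5) (s : Finset (Fin m ⊕ Fin 5))
    (h1 : ∀ u ∈ s, (gr m).Adj v u) (h2 : (gr m).IsIndepSet s) : s.card ≤ 3 := by
  classical
  have hK : ∀ i j, (Sum.inl i : Fin m ⊕ Fin 5) ∈ s → (Sum.inl j : Fin m ⊕ Fin 5) ∈ s → i = j := by
    intro i j hi hj
    by_contra hij
    exact h2 hi hj (by simpa using hij) hij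
  by_cases hk : ∃ i, (Sum.inl i : Fin m ⊕ Fin 5) ∈ s
  · obtain ⟨i, hi⟩ := hk
    have : s ⊆ {Sum.inl i, Sum.inr 0, Sum.inr 1} := by
      rintro (j | t) hu
      · rw [hK j i hu hi]
        simp
      · have h3 : ¬ (2 ≤ t.val) := by
          intro h4
          exact h2 hu hi (by simp) h4
        fin_cases t <;> simp_all
    exact (Finset.card_le_card this).trans Finset.card_le_three
  · push Not at hk
    rcases v with v | v
    · have : s ⊆ {Sum.inr 2, Sum.inr 3, Sum.inr 4} := by
        rintro (j | t) hu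
        · exact absurd hu (hk j)
        · have h3 : 2 ≤ t.val := h1 _ hu
          fin_cases t <;> simp_all
      exact (Finset.card_le_card this).trans Finset.card_le_three
    · have : s ⊆ {Sum.inr 0, Sum.inr 1, Sum.inr 2} := by
        rintro (j | t) hu
        · exact absurd hu (hk j)
        · have h3 : (v.val = 2 ∧ t.val ≤ 1) ∨ (t.val = 2 ∧ v.val ≤ 1) := h1 _ hu
          fin_cases t <;> simp_all
      exact (Finset.card_le_card this).trans Finset.card_le_three

lemma local_K (m : ℕ) (i : Fin m) : localIndep (gr m) (Sum.inl i) = 3 := by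
  classical
  apply le_antisymm (localIndep_le _ _ _ (indep_le m _))
  have : ({Sum.inr 2, Sum.inr 3, Sum.inr 4} : Finset (Fin m ⊕ Fin 5)).card = 3 := by
    rw [Finset.card_eq_three]
    exact ⟨_, _, _, by simp, by simp, by simp, rfl⟩
  rw [← this]
  apply le_localIndep
  · intro u hu
    simp only [Finset.mem_insert, Finset.mem_singleton] at hu
    rcases hu with rfl | rfl | rfl
    · exact le_refl 2
    · exact (by decide : 2 ≤ 3)
    · exact (by decide : 2 ≤ 4)
  · intro a ha b hb _ hab
    simp only [Finset.coe_insert, Finset.coe_singleton, Set.mem_insert_iff,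
      Set.mem_singleton_iff] at ha hb
    rcases ha with rfl | rfl | rfl <;> rcases hb with rfl | rfl | rfl <;>
      · rcases hab with hab | hab <;> simp at hab

lemma local_x (m : ℕ) (hm : 0 < m) : localIndep (gr m) (Sum.inr 2) = 3 := by
  classical
  apply le_antisymm (localIndep_le _ _ _ (indep_le m _))
  have : ({Sum.inr 0, Sum.inr 1, Sum.inl ⟨0, hm⟩} : Finset (Fin m ⊕ Fin 5)).card = 3 := by
    rw [Finset.card_eq_three]
    exact ⟨_, _, _, by simp, by simp, by simp, rfl⟩
  rw [← this]
  apply le_localIndep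
  · intro u hu
    simp only [Finset.mem_insert, Finset.mem_singleton] at hu
    rcases hu with rfl | rfl | rfl
    · exact Or.inl ⟨rfl, by decide⟩
    · exact Or.inl ⟨rfl, by decide⟩
    · exact le_refl 2
  · intro a ha b hb hne hab
    simp only [Finset.coe_insert, Finset.coe_singleton, Set.mem_insert_iff,
      Set.mem_singleton_iff] at ha hb
    rcases ha with rfl | rfl | rfl <;> rcases hb with rfl | rfl | rfl <;>
      first
      | exact hne rfl
      | (rcases hab with hab | hab <;> simp at hab)

lemma lambda_eq (m : ℕ) (hm : 0 < m) : lambdaMax (gr m) = 3 := by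
  apply le_antisymm
  · apply Finset.sup_le
    intro v _
    exact localIndep_le _ _ _ (indep_le m _)
  · rw [← local_x m hm]
    exact Finset.le_sup (f := localIndep (gr m)) (Finset.mem_univ _)

lemma freq_ge (m : ℕ) (hm : 0 < m) : m + 1 ≤ freq (gr m) := by
  classical
  have h : ((Finset.univ.image (Sum.inl : Fin m → Fin m ⊕ Fin 5)) ∪ {Sum.inr 2} :
      Finset (Fin m ⊕ Fin 5)).card = m + 1 := by
    rw [Finset.card_union_of_disjoint, Finset.card_image_of_injective _ Sum.inl_injective]
    · simp
    · simp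
  unfold freq
  rw [← h, ← Set.ncard_coe_finset]
  apply Set.ncard_le_ncard _ (Set.toFinite _)
  rintro v hv
  simp only [Finset.coe_union, Finset.coe_image, Finset.coe_univ, Set.image_univ,
    Finset.coe_singleton, Set.union_singleton, Set.mem_insert_iff, Set.mem_range] at hv
  rcases hv with rfl | ⟨i, rfl⟩
  · show localIndep _ _ = _
    rw [local_x m hm, lambda_eq m hm]
  · show localIndep _ _ = _
    rw [local_K m, lambda_eq m hm]

lemma compl_edges (m : ℕ) : ((gr m)ᶜ).edgeSet.ncard ≤ 2 * m + 8 := by
  classical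
  let A0 : Finset (Sym2 (Fin 5)) :=
    {s(0, 1), s(0, 3), s(0, 4), s(1, 3), s(1, 4), s(3, 4), s(2, 3), s(2, 4)}
  let A : Finset (Sym2 (Fin m ⊕ Fin 5)) := A0.image (Sym2.map Sum.inr)
  let B : Finset (Sym2 (Fin m ⊕ Fin 5)) :=
    Finset.univ.image (fun i : Fin m => s(Sum.inl i, Sum.inr 0))
  let C : Finset (Sym2 (Fin m ⊕ Fin 5)) :=
    Finset.univ.image (fun i : Fin m => s(Sum.inl i, Sum.inr 1))
  have hsub : ((gr m)ᶜ).edgeSet ⊆ ((A ∪ B ∪ C : Finset _) : Set (Sym2 (Fin m ⊕ Fin 5))) := by
    intro e
    induction e using Sym2.ind with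
    | _ u v =>
      intro he
      rw [mem_edgeSet, compl_adj] at he
      obtain ⟨hne, he⟩ := he
      rw [Finset.mem_coe, Finset.mem_union, Finset.mem_union]
      rcases u with i | s <;> rcases v with j | t
      · exact absurd (show i ≠ j from fun h => hne (by rw [h])) he
      · have h3 : ¬ (2 ≤ t.val) := he
        fin_cases t
        · left; right; simp [B]
        · right; simp [C]
        · simp at h3
        · simp at h3
        · simp at h3
      · have h3 : ¬ (2 ≤ s.val) := he
        fin_cases s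
        · left; right; simp [B]
        · right; simp [C]
        · simp at h3
        · simp at h3
        · simp at h3
      · have h3 : ¬ ((s.val = 2 ∧ t.val ≤ 1) ∨ (t.val = 2 ∧ s.val ≤ 1)) := he
        left; left
        have h5 : ∀ s t : Fin 5, s ≠ t → ¬ ((s.val = 2 ∧ t.val ≤ 1) ∨ (t.val = 2 ∧ s.val ≤ 1)) →
            (s(s, t) : Sym2 (Fin 5)) ∈ A0 := by decide
        have h6 := h5 s t (fun h => hne (by rw [h])) h3
        exact Finset.mem_image_of_mem (Sym2.map (Sum.inr : Fin 5 → Fin m ⊕ Fin 5)) h6
  have hA : A.card ≤ 8 := Finset.card_image_le.trans (by decide)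
  have hB : B.card ≤ m := by
    refine Finset.card_image_le.trans ?_
    simp
  have hC : C.card ≤ m := by
    refine Finset.card_image_le.trans ?_
    simp
  calc ((gr m)ᶜ).edgeSet.ncard ≤ ((A ∪ B ∪ C : Finset _) : Set (Sym2 (Fin m ⊕ Fin 5))).ncard :=
        Set.ncard_le_ncard hsub (Finset.finite_toSet _)
    _ = (A ∪ B ∪ C).card := Set.ncard_coe_finset _
    _ ≤ (A ∪ B).card + C.card := Finset.card_union_le _ _
    _ ≤ A.card + B.card + C.card := by
        have := Finset.card_union_le A B
        omega
    _ ≤ _ := by omega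

lemma adj_a {m : ℕ} {v : Fin m ⊕ Fin 5} (s : Fin 5) (hs : s.val ≤ 1)
    (h : (gr m).Adj (Sum.inr s) v) : v = Sum.inr 2 := by
  rcases v with j | t
  · have h3 : 2 ≤ s.val := h
    omega
  · have h3 : (s.val = 2 ∧ t.val ≤ 1) ∨ (t.val = 2 ∧ s.val ≤ 1) := h
    have h4 : t.val = 2 := by omega
    congr 1
    exact Fin.ext h4

lemma noHam (m : ℕ) (hm : 0 < m) (u v : Fin m ⊕ Fin 5) (p : (gr m).Walk u v) :
    ¬ p.IsHamiltonian := by
  intro hp
  have hpath := hp.isPath
  have hlen : p.length = m + 4 := by
    rw [hp.length_eq]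
    simp
  have key : ∀ s : Fin 5, s.val ≤ 1 → ∃ i, i ≤ p.length ∧ p.getVert i = Sum.inr s ∧
      (i = 0 ∨ i = p.length) := by
    intro s hs
    obtain ⟨i, hi, hil⟩ := p.mem_support_iff_exists_getVert.1 (hp.mem_support (Sum.inr s))
    refine ⟨i, hil, hi, ?_⟩
    by_contra hcon
    push Not at hcon
    obtain ⟨h0, h1⟩ := hcon
    have e1 : (gr m).Adj (p.getVert (i - 1)) (p.getVert i) := by
      have := p.adj_getVert_succ (i := i - 1) (by omega)
      rwa [show i - 1 + 1 = i by omega] at this
    have e2 : (gr m).Adj (p.getVert i) (p.getVert (i + 1)) := p.adj_getVert_succ (by omega)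
    rw [hi] at e1 e2
    have f1 := adj_a s hs e1.symm
    have f2 := adj_a s hs e2
    have := hpath.getVert_injOn (by simp; omega : (i - 1) ∈ {j | j ≤ p.length})
      (by simp; omega : (i + 1) ∈ {j | j ≤ p.length}) (f1.trans f2.symm)
    omega
  obtain ⟨i, hi, hi1, hi2⟩ := key 0 (by decide)
  obtain ⟨j, hj, hj1, hj2⟩ := key 1 (by decide)
  have hij : i ≠ j := by
    rintro rfl
    rw [hi1] at hj1
    simp at hj1
  have hx1 : p.getVert 1 = Sum.inr 2 := by
    rcases hi2 with h | h
    · have e2 : (gr m).Adj (p.getVert 0) (p.getVert (0 + 1)) := p.adj_getVert_succ (by omega)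
      rw [← h, hi1, h] at e2
      exact adj_a 0 (by decide) e2
    · have h' : j = 0 := by omega
      have e2 : (gr m).Adj (p.getVert 0) (p.getVert (0 + 1)) := p.adj_getVert_succ (by omega)
      rw [← h', hj1, h'] at e2
      exact adj_a 1 (by decide) e2
  have hx2 : p.getVert (p.length - 1) = Sum.inr 2 := by
    have e1 : (gr m).Adj (p.getVert (p.length - 1)) (p.getVert p.length) := by
      have := p.adj_getVert_succ (i := p.length - 1) (by omega)
      rwa [show p.length - 1 + 1 = p.length by omega] at this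
    rcases hi2 with h | h
    · have h' : j = p.length := by omega
      rw [← h', hj1, h'] at e1
      exact adj_a 1 (by decide) e1.symm
    · rw [← h, hi1, h] at e1
      exact adj_a 0 (by decide) e1.symm
  have := hpath.getVert_injOn (by simp; omega : 1 ∈ {j | j ≤ p.length})
    (by simp : (p.length - 1) ∈ {j | j ≤ p.length}) (hx1.trans hx2.symm)
  omega

lemma connected (m : ℕ) (hm : 0 < m) : (gr m).Connected := by
  have hx : ∀ v, (gr m).Reachable v (Sum.inr 2) := by
    have hK : ∀ i : Fin m, (gr m).Reachable (Sum.inl i) (Sum.inr 2) := fun i =>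
      Adj.reachable (show 2 ≤ (2 : Fin 5).val from le_refl 2)
    rintro (i | s)
    · exact hK i
    · have h3 : ∀ s : Fin 5, 2 ≤ s.val → (gr m).Reachable (Sum.inr s) (Sum.inr 2) := fun s hs =>
        (Adj.reachable (show (gr m).Adj (Sum.inr s) (Sum.inl ⟨0, hm⟩) from hs)).trans (hK _)
      have h4 : ∀ s : Fin 5, s.val ≤ 1 → (gr m).Reachable (Sum.inr s) (Sum.inr 2) := fun s hs =>
        Adj.reachable (show (gr m).Adj (Sum.inr s) (Sum.inr 2) from Or.inr ⟨rfl, hs⟩)
      rcases Nat.lt_or_ge s.val 2 with h | h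
      · exact h4 s (by omega)
      · exact h3 s h
  have : Nonempty (Fin m ⊕ Fin 5) := ⟨Sum.inr 0⟩
  exact ⟨fun u v => (hx u).trans (hx v).symm⟩

/-- For every `n ≥ 11` there is a connected graph on `n` vertices that satisfies
`(1 + 2 |E(Gᶜ)|) / 6 ≤ f(G)` and has no Hamiltonian path. -/
theorem result : ∀ n : ℕ, 11 ≤ n → ∃ (V : Type) (_ : Fintype V) (_ : DecidableEq V)
    (G : SimpleGraph V), Fintype.card V = n ∧ G.Connected ∧
      (1 / 6 : ℚ) * (1 + 2 * (Gᶜ.edgeSet.ncard : ℚ)) ≤ (freq G : ℚ) ∧
      ∀ (u v : V) (p : G.Walk u v), ¬ p.IsHamiltonian := by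
  intro n hn
  obtain ⟨m, rfl⟩ : ∃ m, n = m + 5 := ⟨n - 5, by omega⟩
  refine ⟨Fin m ⊕ Fin 5, inferInstance, inferInstance, gr m, by simp, connected m (by omega), ?_,
    noHam m (by omega)⟩
  have h1 : ((gr m)ᶜ.edgeSet.ncard : ℚ) ≤ 2 * m + 8 := by exact_mod_cast compl_edges m
  have h2 : ((m : ℚ) + 1) ≤ (freq (gr m) : ℚ) := by exact_mod_cast freq_ge m (by omega)
  have h3 : (6 : ℚ) ≤ m := by exact_mod_cast (by omega : 6 ≤ m)
  linarith

end Pool.Agent.Results.MP_81a4f1_co.Disproof
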